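import Mathlib

/-!
# MP_5ee2d0_ag: the family over a complete curve

`X_t` is a very general fibre of the family over a very general complete curve `T` in the base (after a
finite covering of `T`, so that all line bundles on `X_t` extend), `P = Pic(X_t)`. `Y → T` are the models
of the family: `Q`-factorial terminal fourfolds with reduced semi log canonical fibres, relatively minimal,
connected with each other by flops; `K_Y` is the pull back of `K_T + λ`, `λ` the Hodge bundle. `L` is a nef
class on `X_t`, not zero, with `L^3 = 0` and `c_2.L = 0`, and there is a model on which a class `N`, the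
restriction of which to `X_t` is `L`, is nef over `T`.
-/

namespace Pool.Agent.H96.N1

/-- The classes on the modifications of the models. `W → T` are the smooth projective modifications of
the models which are isomorphic to them over the general points of `T`; `B` is the direct limit of the
groups `Pic(W)`. `F` is the class of a fibre, `N` is the pull back of the class `N` of a model on which it
is nef over `T`; it does not depend on the model (negativity lemma). -/
structure Curve {P : Type} [AddCommGroup P] (T : P → P → P → ℤ) (c : P → ℤ) (Nef : P → Prop)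
    (H L : P) (Run : Prop) where
  B : Type
  [grp : AddCommGroup B]
  /-- the restriction to `X_t` -/
  rho : B → P
  rho_add : ∀ a b, rho (a + b) = rho a + rho b
  N : B
  F : B
  rho_N : rho N = L
  rho_F : rho F = 0
  /-- the intersection form -/
  Q : B → B → B → B → ℤ
  add : ∀ a b x y z, Q (a + b) x y z = Q a x y z + Q b x y z
  symm12 : ∀ a b x y, Q a b x y = Q b a x y
  symm23 : ∀ a b x y, Q a b x y = Q a x b y
  symm34 : ∀ a b x y, Q a b x y = Q a b y x
  fibre : ∀ a b x, Q F a b x = T (rho a) (rho b) (rho x)
  /-- nef -/
  NefW : B → Prop
  nonneg : ∀ a b x y, NefW a → NefW b → NefW x → NefW y → 0 ≤ Q a b x y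
  /-- the pull back of a class on some model `Y`, which is nef over `T` -/
  Rel : B → Prop
  /-- a positive multiple of the class is effective -/
  Eff : B → Prop
  /-- the degree of `λ` -/
  g : ℕ
  /-- `R^i π_* O(m D) = 0` for `i > 0` (Kawamata and Viehweg), so `h^0(m (D + a F))` is at least the Euler
  characteristic of `m (D + a F)`, and `(D + a F)^4 > 0` -/
  eff : ∀ D (a : ℤ), Rel D → 0 < T (rho D) (rho D) (rho D) →
    0 < Q D D D D + 4 * a * T (rho D) (rho D) (rho D) → Eff (D + a • F)
  /-- Let `Δ` be an effective `Q`-divisor in the class `α (D + a F)`, `α > 0` smaller than the inverse of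
  `d = D.H.H` on `X_t`. The multiplicities of `Δ` on `X_t` are at most `α d < 1`, since `H` is very ample,
  so it is klt there. The direct images of the multiples of `K_Y + Δ - π^* K_T`, the class of
  `α (D + a F) + g F`, are nef (Campana 2004; Fujino 2017), and it is semiample over `T`, so it is nef.
  Take the limit `α → 1 / d`. -/
  nef : ∀ D (a : ℤ), Rel D → 0 < T (rho D) (rho D) (rho D) → Eff (D + a • F) →
    NefW (D + (a + g * T (rho D) H H) • F)
  /-- Let `k L + x` be nef and big, `x'` an extension of `x` to the models. The positive part of the
  Zariski decomposition of `k N + x'` over `T` is rational and movable (Birkar, Cascini, Hacon and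
  McKernan), and the negative part is vertical, so we may assume that `M = k N + x'` is movable over
  `T`. Run the program for `N + d M` over `T`, with `d` decreasing to zero, starting with a model on
  which `M + e N` is nef over `T` for all small `e ≥ 0`. If it consists of infinitely many steps then
  infinitely many of them are over one point of `T`, and they give the data of `Run`. Otherwise `N` and
  `j N + x'` are nef over `T` on the last model, for all large `j`. `D` is the pull back of `m x'`, which
  is a Cartier divisor there. -/
  ext : ∀ x, (∃ k : ℤ, Nef (k • L + x) ∧ 0 < T (k • L + x) (k • L + x) (k • L + x)) →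
    (∃ m : ℤ, 0 < m ∧ ∃ D, rho D = m • x ∧ ∃ k0 : ℤ, ∀ k, k0 ≤ k → Rel (k • N + D)) ∨ Run
  /-- The number `c_2(Y).N.N`. It is the same for all the models `Y` on which `N` is nef over `T`, since they
  are connected by flops of surfaces on which `N.N` is zero; equivalently
  `24 χ(Y, n N) = n^4 N^4 + n^2 c_2(Y).N.N + 24 deg λ` if `L^3 = 0` and `c_2.L = 0`. -/
  cN : ℤ
  /-- `N` and `D` are pull backs of classes on one model `Y` (that of `(j0 + 1) N + D`, since `N` and
  `j0 N + D` are nef over `T`). Miyaoka's inequality: `K_Y` is nef after a covering of `T`, and `K_Y^2 = 0`,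
  so the second Chern class of `Y` has nonnegative degree on the square of a nef class. The numbers `b`
  and `e` are `2 c_2(Y).N.D` and `c_2(Y).D.D`. -/
  miyaoka : ∀ D (j0 : ℤ), (∀ j, j0 ≤ j → Rel (j • N + D)) → ∃ b e : ℤ, ∀ j a : ℤ,
    NefW (j • N + D + a • F) → 0 ≤ j ^ 2 * cN + j * b + e + 2 * a * (j * c L + c (rho D))

attribute [instance] Curve.grp

/-- The case `L^2 = 0`. `Triv` are the degrees of the curves `C` in `X_t` with `L.C = 0`. -/
structure Pencil {P : Type} [AddCommGroup P] (T : P → P → P → ℤ) (c : P → ℤ) (Nef : P → Prop)
    (H L : P) (Triv : (P → ℤ) → Prop) (Run : Prop) extends Curve T c Nef H L Run where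
  /-- `Zero k v` says that `k N^2 + i_* v` is zero in `H^4(W, ℚ)` for all `W`, where `i_*` is the Gysin map
  of `X_t` -/
  Zero : ℤ → P → Prop
  zero : ∀ k v a b, Zero k v → k * Q N N a b + T v (rho a) (rho b) = 0
  zero_c : ∀ k v, Zero k v → k * cN + c v = 0
  /-- The curve `C` moves over a covering of `T`; on the surface swept out by it `N` has degree zero on the
  fibres, so `N.N ≤ 0` (Hodge index theorem). -/
  zero_triv : ∀ k v d, 0 < k → Zero k v → Triv d → 0 ≤ d v
  /-- `Psef x z` says that `x N + z F` is pseudoeffective -/
  Psef : ℤ → ℤ → Prop
  /-- `N + D / k + (a / k) F` is pseudoeffective, and `a / k` is at most `z / x + 1 / (j x)` -/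
  limit : ∀ D (x z : ℤ), 0 < x →
    (∀ j : ℕ, 0 < j → ∃ k a : ℤ, j ≤ k ∧ Eff (k • N + D + a • F) ∧ j * (a * x - k * z) ≤ k) → Psef x z

end Pool.Agent.H96.N1
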