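import Pool.Agent.H96.N1.Core

/-! # MP_5ee2d0_ag, numerical dimension one: the form `q(v, x) = v.L.x` -/

namespace Pool.Agent.H96.N1.Pencil

variable {P : Type} [AddCommGroup P] {T : P → P → P → ℤ} {c : P → ℤ} {Nef : P → Prop}
  {H L : P} {Triv : (P → ℤ) → Prop} {Run : Prop} (S : Pencil T c Nef H L Triv Run)

/-- `q(v, x) ≥ 0` -/
theorem qv_nonneg (hT : Cubic T) (hLL : ∀ y, T L L y = 0) {κ : ℤ} {v : P} (hκ : 0 < κ)
    (hZ : S.Zero κ v) {D : S.B} (hD : S.Ext D) {x : P} {m : ℤ} (hm : 0 < m)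
    (hx : S.rho D = m • x) (hq : 0 < T L x x) : 0 ≤ T v L x := by
  have hq' : 0 < T L (S.rho D) (S.rho D) := by
    rw [hx, hT.smul2, hT.smul3]; positivity
  obtain ⟨A, hA, hA3⟩ := S.exists_nef hT hLL hD hq'
  obtain ⟨K, t1, -, ht⟩ := S.thr hT hLL hκ hZ hD hm hx hq
  set t3 := T (S.rho A) (S.rho A) (S.rho A) with ht3
  set α : ℝ := T v L x / (3 * κ * T L x x) with hα
  set β : ℝ := T v x x / (2 * κ * T L x x) - T v L x * T x x x / (9 * κ * (T L x x) ^ 2) with hβ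
  have hm1 : (0 : ℝ) < m := by exact_mod_cast hm
  have ht3R : (0 : ℝ) < t3 := by exact_mod_cast hA3
  have h1 : 0 ≤ m * α * t3 := by
    refine lead2 (b := m * S.Q S.N A A A + m * β * t3 + S.g * m * T L H H * t3)
      (c := S.Q D A A A + m * K * t3 + S.g * m * T x H H * t3) (k1 := t1) fun t htt => ?_
    obtain ⟨a, -, hn, ha⟩ := ht t htt
    have h2 := S.nonneg _ _ _ _ hn hA hA hA
    rw [S.lin] at h2
    have h3 : (0 : ℝ) ≤ m * t * S.Q S.N A A A + S.Q D A A A +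
        (a + S.g * (m * (t * T L H H + T x H H))) * t3 := by exact_mod_cast h2
    nlinarith
  have h2 : 0 ≤ α := by
    by_contra h
    push Not at h
    have : m * α * t3 < 0 := mul_neg_of_neg_of_pos (mul_neg_of_pos_of_neg hm1 h) ht3R
    linarith
  rw [hα] at h2
  have hκR : (0 : ℝ) < κ := by exact_mod_cast hκ
  have hqR : (0 : ℝ) < T L x x := by exact_mod_cast hq
  have h3 : (0 : ℝ) ≤ T v L x := by
    have h4 : (0 : ℝ) < 3 * κ * T L x x := by positivity
    rw [le_div_iff₀ h4, zero_mul] at h2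
    exact h2
  exact_mod_cast h3

/-- `q(v, v) ≥ 0` -/
theorem qvv_nonneg (hT : Cubic T) (hLL : ∀ y, T L L y = 0) {κ : ℤ} {v : P} (hκ : 0 < κ)
    (hZ : S.Zero κ v) (hl : 0 < T L H H) (hb : 0 ≤ T v L H)
    (hext : ∀ s t : ℤ, 0 ≤ s → 0 < t → 0 < T L (s • v + t • H) (s • v + t • H) →
      0 < T (s • v + t • H) L H → ∃ m : ℤ, 0 < m ∧ ∃ D, S.rho D = m • (s • v + t • H) ∧ S.Ext D) :
    0 ≤ T v L v := by
  by_contra hc
  push Not at hc
  have e1 : T L v v = T v L v := hT.symm12 _ _ _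
  have e2 : T L v H = T v L H := hT.symm12 _ _ _
  have e3 : T L H v = T v L H := by rw [hT.symm23, e2]
  have e4 : T H L H = T L H H := hT.symm12 _ _ _
  set C := T v L v with hC
  set b := T v L H with hbd
  set l := T L H H with hld
  have hq : T L ((2 * b + 1) • v + (-2 * C) • H) ((2 * b + 1) • v + (-2 * C) • H) =
      -C * (4 * b ^ 2 - 1 - 4 * C * l) := by
    simp only [hT.add2, hT.add3, hT.smul2, hT.smul3, e1, e2, e3]
    ring
  have hl' : 1 ≤ -C * l := by nlinarith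
  obtain ⟨m, hm, D, hD, hE⟩ := hext (2 * b + 1) (-2 * C) (by linarith) (by linarith)
    (by rw [hq]; nlinarith [sq_nonneg b])
    (by
      simp only [hT.add, hT.smul1, e4]
      nlinarith)
  have h1 := S.qv_nonneg hT hLL hκ hZ hE hm hD (by rw [hq]; nlinarith [sq_nonneg b])
  simp only [hT.add3, hT.smul3] at h1
  nlinarith

end Pool.Agent.H96.N1.Pencil
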