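import Pool.Agent.H96.N1.Core

/-! # MP_5ee2d0_ag, numerical dimension two: the last step -/

namespace Pool.Agent.H96.N1

/-- a cubic polynomial with positive leading coefficient -/
theorem cubic_pos {a b c d k : ℤ} (ha : 0 < a) (hk : |b| + |c| + |d| + 1 ≤ k) :
    0 < a * k ^ 3 + b * k ^ 2 + c * k + d := by
  have hb := neg_abs_le b
  have hc := neg_abs_le c
  have hd := neg_abs_le d
  have h0b := abs_nonneg b
  have h0c := abs_nonneg c
  have h0d := abs_nonneg d
  have hk1 : 1 ≤ k := by linarith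
  have h1 : k ^ 3 ≤ a * k ^ 3 := by
    have : (0 : ℤ) ≤ k ^ 3 := by positivity
    nlinarith
  have h2 : (|b| + |c| + |d| + 1) * k ^ 2 ≤ k * k ^ 2 :=
    mul_le_mul_of_nonneg_right hk (by positivity)
  have h3 : -(|b| * k ^ 2) ≤ b * k ^ 2 := by nlinarith [sq_nonneg k]
  have h4 : -(|c| * k ^ 2) ≤ c * k := by
    have : |c| * k ≤ |c| * k ^ 2 := by
      apply mul_le_mul_of_nonneg_left _ h0c
      nlinarith
    nlinarith
  have h5 : -(|d| * k ^ 2) ≤ d := by
    have hk2 : 1 ≤ k ^ 2 := by nlinarith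
    have : |d| * 1 ≤ |d| * k ^ 2 := mul_le_mul_of_nonneg_left hk2 h0d
    linarith
  nlinarith [sq_nonneg k]

/-- `N4` is `N^4`, `cN` is `c_2.N.N`, `len n` is the length of the direct image of `n N`. -/
theorem two_of_lengths {N4 cN g : ℤ} {len : ℕ → ℤ} {C : ℤ} (hg : 0 < g)
    (h : ∀ n : ℕ, 0 < n → N4 * n ^ 4 + cN * n ^ 2 + 24 * g = -24 * len n)
    (hlen : ∀ n : ℕ, 0 < n → 0 ≤ len n ∧ len n ≤ C * n ^ 3) : N4 = 0 ∧ cN < 0 := by
  have hcast : ∀ k : ℤ, 1 ≤ k → N4 * k ^ 4 + cN * k ^ 2 + 24 * g ≤ 0 ∧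
      -24 * (C * k ^ 3) ≤ N4 * k ^ 4 + cN * k ^ 2 + 24 * g := by
    intro k hk
    obtain ⟨n, rfl⟩ := Int.eq_ofNat_of_zero_le (by linarith : 0 ≤ k)
    have hn : 0 < n := by omega
    have h1 := h n hn
    obtain ⟨h2, h3⟩ := hlen n hn
    constructor <;> linarith
  have h4 : N4 = 0 := by
    by_contra hne
    rcases lt_or_gt_of_ne hne with hlt | hgt
    · -- `N4 < 0` contradicts the lower bound
      have h1 := cubic_pos (a := -N4) (b := -(24 * C)) (c := -cN) (d := -(24 * g))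
        (k := |(-(24 * C))| + |(-cN)| + |(-(24 * g))| + 1) (by linarith) le_rfl
      set k := |(-(24 * C))| + |(-cN)| + |(-(24 * g))| + 1 with hk
      have hk1 : 1 ≤ k := by
        have := abs_nonneg (-(24 * C)); have := abs_nonneg (-cN); have := abs_nonneg (-(24 * g))
        linarith
      obtain ⟨-, h2⟩ := hcast k hk1
      have h3 : 0 < k * (-N4 * k ^ 3 + -(24 * C) * k ^ 2 + -cN * k + -(24 * g)) :=
        mul_pos (by linarith) h1
      nlinarith
    · have h1 := cubic_pos (a := N4) (b := 0) (c := cN) (d := 0)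
        (k := |(0 : ℤ)| + |cN| + |(0 : ℤ)| + 1) hgt le_rfl
      set k := |(0 : ℤ)| + |cN| + |(0 : ℤ)| + 1 with hk
      have hk1 : 1 ≤ k := by
        have := abs_nonneg (0 : ℤ); have := abs_nonneg cN
        linarith
      obtain ⟨h2, -⟩ := hcast k hk1
      have h3 : 0 < k * (N4 * k ^ 3 + 0 * k ^ 2 + cN * k + 0) := mul_pos (by linarith) h1
      nlinarith
  refine ⟨h4, ?_⟩
  obtain ⟨h1, -⟩ := hcast 1 le_rfl
  rw [h4] at h1
  linarith

namespace Curve

variable {P : Type} [AddCommGroup P] {T : P → P → P → ℤ} {c : P → ℤ} {Nef : P → Prop}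
  {H L : P} {Run : Prop} (S : Curve T c Nef H L Run)

/-- Numerical dimension two, the last step: if `N^4 = 0` then `c_2.N.N ≥ 0`. For large `k` and
`a = A k`, `A` fixed, the class `k N + D + a F` is big, so `k N + D + O(k) F` is nef. -/
theorem two (hT : Cubic T) (hL3 : T L L L = 0) (hcL : c L = 0) (hL2 : 0 < T L L H) {D : S.B}
    (hD : S.Ext D) {m : ℤ} (hm : 0 < m) (hx : S.rho D = m • H)
    (h4 : S.Q S.N S.N S.N S.N = 0) : 0 ≤ S.cN := by
  obtain ⟨k0, hk0⟩ := hD
  obtain ⟨b, e, hbe⟩ := S.miyaoka D k0 hk0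
  set u := T L L H with hu
  set p := T L H H with hp
  set w := T H H H with hw
  set n3 := S.Q S.N S.N S.N D with hn3
  set n2 := S.Q S.N S.N D D with hn2
  set n1 := S.Q S.N D D D with hn1
  set n0 := S.Q D D D D with hn0
  set A := |n3| + 1 with hA
  have e1 : T L H L = u := hT.symm23 _ _ _
  have e2 : T H L L = u := by rw [hT.symm12, e1]
  have e3 : T H L H = p := hT.symm12 _ _ _
  have e4 : T H H L = p := by rw [hT.symm23, e3]
  have hcub : ∀ k : ℤ, T (k • L + m • H) (k • L + m • H) (k • L + m • H) =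
      3 * m * u * k ^ 2 + 3 * m ^ 2 * p * k + m ^ 3 * w := by
    intro k
    simp only [hT.add, hT.add2, hT.add3, hT.smul1, hT.smul2, hT.smul3, hL3, e1, e2, e3, e4,
      ← hu, ← hp, ← hw]
    ring
  have hcH : c (S.rho D) = c (m • H) := by rw [hx]
  -- nef classes
  have key : ∀ k : ℤ, k0 ≤ k →
      |3 * m ^ 2 * p| + |m ^ 3 * w| + |(0 : ℤ)| + 1 ≤ k →
      |6 * n2 + 12 * A * m ^ 2 * p| + |4 * n1 + 4 * A * (m ^ 3 * w)| + |n0| + 1 ≤ k →
      S.NefW (k • S.N + D + (A * k + S.g * (k * p + m * w)) • S.F) := by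
    intro k hk hk2 hk3
    have hr := hk0 k hk
    have h3 : 0 < T (k • L + m • H) (k • L + m • H) (k • L + m • H) := by
      rw [hcub]
      have h5 := cubic_pos (a := 3 * m * u) (b := 3 * m ^ 2 * p) (c := m ^ 3 * w) (d := 0)
        (k := k) (by positivity) hk2
      have hkpos : 0 < k := by
        have := abs_nonneg (3 * m ^ 2 * p); have := abs_nonneg (m ^ 3 * w)
        have := abs_nonneg (0 : ℤ); linarith
      have h6 : 0 < k * (3 * m * u * k ^ 2 + 3 * m ^ 2 * p * k + m ^ 3 * w) := by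
        have e : k * (3 * m * u * k ^ 2 + 3 * m ^ 2 * p * k + m ^ 3 * w) =
          3 * m * u * k ^ 3 + 3 * m ^ 2 * p * k ^ 2 + m ^ 3 * w * k + 0 := by ring
        rw [e]; exact h5
      exact (mul_pos_iff_of_pos_left hkpos).1 h6
    have hlead : 0 < 4 * n3 + 12 * A * m * u := by
      have h5 := neg_abs_le n3
      have h6 : 1 ≤ m * u := by nlinarith
      have h7 : A ≤ A * (m * u) := by nlinarith [abs_nonneg n3]
      nlinarith [abs_nonneg n3]
    have h5 := cubic_pos (a := 4 * n3 + 12 * A * m * u) (b := 6 * n2 + 12 * A * m ^ 2 * p)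
      (c := 4 * n1 + 4 * A * (m ^ 3 * w)) (d := n0) (k := k) hlead hk3
    have heff : S.Eff (k • S.N + D + (A * k) • S.F) := by
      apply S.eff _ _ hr
      · rw [S.rho_eq, hx]; exact h3
      · rw [S.rho_eq, hx, hcub, S.pow4, h4]
        have e : k ^ 4 * 0 + 4 * k ^ 3 * n3 + 6 * k ^ 2 * n2 + 4 * k * n1 + n0 +
            4 * (A * k) * (3 * m * u * k ^ 2 + 3 * m ^ 2 * p * k + m ^ 3 * w) =
          (4 * n3 + 12 * A * m * u) * k ^ 3 + (6 * n2 + 12 * A * m ^ 2 * p) * k ^ 2 +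
            (4 * n1 + 4 * A * (m ^ 3 * w)) * k + n0 := by ring
        rw [← hn3, ← hn2, ← hn1, ← hn0, e]
        exact h5
    have h6 := S.nef _ _ hr (by rw [S.rho_eq, hx]; exact h3) heff
    rw [S.rho_eq, hx, hT.add, hT.smul1, hT.smul1] at h6
    exact h6
  have hfin : (0 : ℝ) ≤ S.cN := by
    refine lead2 (b := b + 2 * (A + S.g * p) * c (S.rho D)) (c := e + 2 * (S.g * (m * w)) * c (S.rho D))
      (k1 := |k0| + (|3 * m ^ 2 * p| + |m ^ 3 * w| + |(0 : ℤ)| + 1) +
        (|6 * n2 + 12 * A * m ^ 2 * p| + |4 * n1 + 4 * A * (m ^ 3 * w)| + |n0| + 1)) fun k hk => ?_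
    have a0 := abs_nonneg k0
    have a1 := le_abs_self k0
    have b1 := abs_nonneg (3 * m ^ 2 * p)
    have b2 := abs_nonneg (m ^ 3 * w)
    have b3 := abs_nonneg (0 : ℤ)
    have b4 := abs_nonneg (6 * n2 + 12 * A * m ^ 2 * p)
    have b5 := abs_nonneg (4 * n1 + 4 * A * (m ^ 3 * w))
    have b6 := abs_nonneg n0
    have h1 := hbe k _ (key k (by linarith) (by linarith) (by linarith))
    rw [hcL] at h1
    have h2 : (0 : ℝ) ≤ k ^ 2 * S.cN + k * b + e +
        2 * (A * k + S.g * (k * p + m * w)) * (k * 0 + c (S.rho D)) := by exact_mod_cast h1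
    nlinarith
  exact_mod_cast hfin

end Curve

end Pool.Agent.H96.N1
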