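import Pool.Agent.H96.N1.Base

/-! # MP_5ee2d0_ag, numerical dimension one: thresholds -/

namespace Pool.Agent.H96.N1

/-- symmetric trilinear forms -/
structure Cubic {P : Type} [AddCommGroup P] (T : P → P → P → ℤ) : Prop where
  add : ∀ x y a b, T (x + y) a b = T x a b + T y a b
  symm12 : ∀ x y z, T x y z = T y x z
  symm23 : ∀ x y z, T x y z = T x z y

namespace Cubic

variable {P : Type} [AddCommGroup P] {T : P → P → P → ℤ} (hT : Cubic T)

include hT

theorem add2 (a x y b : P) : T a (x + y) b = T a x b + T a y b := by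
  rw [hT.symm12, hT.add, hT.symm12 x, hT.symm12 y]

theorem add3 (a b x y : P) : T a b (x + y) = T a b x + T a b y := by
  rw [hT.symm23, hT.add2, hT.symm23 a x, hT.symm23 a y]

theorem smul1 (n : ℤ) (x a b : P) : T (n • x) a b = n * T x a b := by
  have h := map_zsmul (AddMonoidHom.mk' (fun x => T x a b) fun x y => hT.add x y a b) n x
  simpa using h

theorem smul2 (n : ℤ) (a x b : P) : T a (n • x) b = n * T a x b := by
  rw [hT.symm12, hT.smul1, hT.symm12]

theorem smul3 (n : ℤ) (a b x : P) : T a b (n • x) = n * T a b x := by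
  rw [hT.symm23, hT.smul2, hT.symm23]

/-- `(k L + x)^3` -/
theorem pow3 {L : P} (hLL : ∀ y, T L L y = 0) (k : ℤ) (x : P) :
    T (k • L + x) (k • L + x) (k • L + x) = 3 * k * T L x x + T x x x := by
  have h1 : T L x L = 0 := by rw [hT.symm23]; exact hLL x
  have h2 : T x L L = 0 := by rw [hT.symm12]; exact h1
  have h3 : T x L x = T L x x := hT.symm12 _ _ _
  have h4 : T x x L = T L x x := by rw [hT.symm23, h3]
  simp only [hT.add, hT.add2, hT.add3, hT.smul1, hT.smul2, hT.smul3, hLL, h1, h2, h3, h4]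
  ring

end Cubic

/-- a quadratic polynomial which is nonnegative for large integers -/
theorem lead2 {a b c : ℝ} {k1 : ℤ} (h : ∀ k : ℤ, k1 ≤ k → 0 ≤ a * k ^ 2 + b * k + c) : 0 ≤ a := by
  by_contra ha
  push Not at ha
  obtain ⟨n, hn⟩ := exists_nat_gt ((|b| + |c|) / (-a))
  have hn' : |b| + |c| < n * (-a) := by
    rwa [div_lt_iff₀ (by linarith)] at hn
  have hk : k1 ≤ max k1 ((n : ℤ) + 1) := le_max_left _ _
  have h1 := h _ hk
  have hr : (n : ℝ) + 1 ≤ ((max k1 ((n : ℤ) + 1) : ℤ) : ℝ) := by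
    have : ((n : ℤ) + 1) ≤ max k1 ((n : ℤ) + 1) := le_max_right _ _
    exact_mod_cast this
  set r : ℝ := ((max k1 ((n : ℤ) + 1) : ℤ) : ℝ) with hrdef
  have hn0 : (0 : ℝ) ≤ n := Nat.cast_nonneg n
  have hr1 : 1 ≤ r := by linarith
  have hb : b * r ≤ |b| * r := mul_le_mul_of_nonneg_right (le_abs_self b) (by linarith)
  have hc : c ≤ |c| * r := by nlinarith [le_abs_self c, abs_nonneg c]
  have h2 : |b| + |c| < r * (-a) := by nlinarith
  nlinarith

/-- a linear polynomial which is nonnegative for large integers -/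
theorem lead1 {b c : ℝ} {k1 : ℤ} (h : ∀ k : ℤ, k1 ≤ k → 0 ≤ b * k + c) : 0 ≤ b := by
  refine lead2 (b := c) (c := 0) (k1 := max k1 0) fun k hk => ?_
  have h1 := h k (le_trans (le_max_left _ _) hk)
  have h2 : (0 : ℝ) ≤ k := by exact_mod_cast le_trans (le_max_right k1 0) hk
  nlinarith

/-- a cubic polynomial which is nonnegative for large integers -/
theorem lead3 {a b c d : ℝ} {k1 : ℤ}
    (h : ∀ k : ℤ, k1 ≤ k → 0 ≤ a * k ^ 3 + b * k ^ 2 + c * k + d) : 0 ≤ a := by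
  refine lead2 (b := |b| + |c| + |d|) (c := 0) (k1 := max k1 1) fun k hk => ?_
  have h1 := h k (le_trans (le_max_left _ _) hk)
  have h2 : (1 : ℝ) ≤ k := by exact_mod_cast le_trans (le_max_right k1 1) hk
  have hb : b * k ^ 2 ≤ |b| * k ^ 2 := mul_le_mul_of_nonneg_right (le_abs_self b) (by positivity)
  have hc : c * k ≤ |c| * k ^ 2 := by
    have : c * k ≤ |c| * k := mul_le_mul_of_nonneg_right (le_abs_self c) (by linarith)
    nlinarith [abs_nonneg c, mul_nonneg (abs_nonneg c) (mul_nonneg (by linarith : (0:ℝ) ≤ k) (by linarith : (0:ℝ) ≤ (k:ℝ) - 1))]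
  have hd : d ≤ |d| * k ^ 2 := by
    have h3 : (1 : ℝ) ≤ (k : ℝ) ^ 2 := by nlinarith
    nlinarith [le_abs_self d, abs_nonneg d]
  have h3 : 0 ≤ (k : ℝ) * (a * k ^ 2 + (|b| + |c| + |d|) * k + 0) := by nlinarith
  exact nonneg_of_mul_nonneg_right h3 (by linarith)

namespace Curve

variable {P : Type} [AddCommGroup P] {T : P → P → P → ℤ} {c : P → ℤ} {Nef : P → Prop}
  {H L : P} {Run : Prop} (S : Curve T c Nef H L Run)

/-- `k N + D` is nef over `T` for all large `k` -/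
def Ext (D : S.B) : Prop := ∃ k0 : ℤ, ∀ k, k0 ≤ k → S.Rel (k • S.N + D)

theorem add2 (a x y b e : S.B) : S.Q a (x + y) b e = S.Q a x b e + S.Q a y b e := by
  rw [S.symm12, S.add, S.symm12 x, S.symm12 y]

theorem add3 (a b x y e : S.B) : S.Q a b (x + y) e = S.Q a b x e + S.Q a b y e := by
  rw [S.symm23, S.add2, S.symm23 a x, S.symm23 a y]

theorem add4 (a b e x y : S.B) : S.Q a b e (x + y) = S.Q a b e x + S.Q a b e y := by
  rw [S.symm34, S.add3, S.symm34 a b x, S.symm34 a b y]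

theorem smul1 (n : ℤ) (x a b e : S.B) : S.Q (n • x) a b e = n * S.Q x a b e := by
  have h := map_zsmul (AddMonoidHom.mk' (fun x => S.Q x a b e) fun x y => S.add x y a b e) n x
  simpa using h

theorem smul2 (n : ℤ) (a x b e : S.B) : S.Q a (n • x) b e = n * S.Q a x b e := by
  rw [S.symm12, S.smul1, S.symm12]

theorem smul3 (n : ℤ) (a b x e : S.B) : S.Q a b (n • x) e = n * S.Q a b x e := by
  rw [S.symm23, S.smul2, S.symm23]

theorem smul4 (n : ℤ) (a b e x : S.B) : S.Q a b e (n • x) = n * S.Q a b e x := by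
  rw [S.symm34, S.smul3, S.symm34]

/-- `(k N + D)^4` -/
theorem pow4 (k : ℤ) (D : S.B) : S.Q (k • S.N + D) (k • S.N + D) (k • S.N + D) (k • S.N + D) =
    k ^ 4 * S.Q S.N S.N S.N S.N + 4 * k ^ 3 * S.Q S.N S.N S.N D + 6 * k ^ 2 * S.Q S.N S.N D D +
      4 * k * S.Q S.N D D D + S.Q D D D D := by
  have e1 : S.Q S.N S.N D S.N = S.Q S.N S.N S.N D := S.symm34 _ _ _ _
  have e2 : S.Q S.N D S.N S.N = S.Q S.N S.N S.N D := by rw [S.symm23, e1]
  have e3 : S.Q D S.N S.N S.N = S.Q S.N S.N S.N D := by rw [S.symm12, e2]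
  have e4 : S.Q S.N D S.N D = S.Q S.N S.N D D := S.symm23 _ _ _ _
  have e5 : S.Q S.N D D S.N = S.Q S.N S.N D D := by rw [S.symm34, e4]
  have e6 : S.Q D S.N S.N D = S.Q S.N S.N D D := by rw [S.symm12, e4]
  have e7 : S.Q D S.N D S.N = S.Q S.N S.N D D := by rw [S.symm12, e5]
  have e8 : S.Q D D S.N S.N = S.Q S.N S.N D D := by rw [S.symm23, e7]
  have e9 : S.Q D S.N D D = S.Q S.N D D D := S.symm12 _ _ _ _
  have e10 : S.Q D D S.N D = S.Q S.N D D D := by rw [S.symm23, e9]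
  have e11 : S.Q D D D S.N = S.Q S.N D D D := by rw [S.symm34, e10]
  simp only [S.add, S.add2, S.add3, S.add4, S.smul1, S.smul2, S.smul3, S.smul4, e1, e2, e3, e4,
    e5, e6, e7, e8, e9, e10, e11]
  ring

theorem rho_zsmul (n : ℤ) (x : S.B) : S.rho (n • x) = n • S.rho x :=
  map_zsmul (AddMonoidHom.mk' S.rho S.rho_add) n x

theorem rho_eq (k : ℤ) (D : S.B) : S.rho (k • S.N + D) = k • L + S.rho D := by
  rw [S.rho_add, S.rho_zsmul, S.rho_N]

theorem rho_eq' (k a : ℤ) (D : S.B) : S.rho (k • S.N + D + a • S.F) = k • L + S.rho D := by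
  rw [S.rho_add, S.rho_eq, S.rho_zsmul, S.rho_F, smul_zero, add_zero]

/-- product with the cube of a class -/
theorem lin (k a : ℤ) (D A : S.B) : S.Q (k • S.N + D + a • S.F) A A A =
    k * S.Q S.N A A A + S.Q D A A A + a * T (S.rho A) (S.rho A) (S.rho A) := by
  rw [S.add, S.add, S.smul1, S.smul1, S.fibre]

/-- the field `eff` for `k N + D` -/
theorem eff_of (hT : Cubic T) (hLL : ∀ y, T L L y = 0) {D : S.B} {k a : ℤ}
    (hr : S.Rel (k • S.N + D)) (h0 : 0 < 3 * k * T L (S.rho D) (S.rho D) + T (S.rho D) (S.rho D) (S.rho D))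
    (h1 : 0 < k ^ 4 * S.Q S.N S.N S.N S.N + 4 * k ^ 3 * S.Q S.N S.N S.N D +
      6 * k ^ 2 * S.Q S.N S.N D D + 4 * k * S.Q S.N D D D + S.Q D D D D +
      4 * a * (3 * k * T L (S.rho D) (S.rho D) + T (S.rho D) (S.rho D) (S.rho D))) :
    S.Eff (k • S.N + D + a • S.F) := by
  apply S.eff _ _ hr
  · rw [S.rho_eq, hT.pow3 hLL]
    exact h0
  · rw [S.rho_eq, hT.pow3 hLL, S.pow4]
    exact h1

/-- the field `nef` for `k N + D` -/
theorem nef_of (hT : Cubic T) (hLL : ∀ y, T L L y = 0) {D : S.B} {k a : ℤ}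
    (hr : S.Rel (k • S.N + D)) (h0 : 0 < 3 * k * T L (S.rho D) (S.rho D) + T (S.rho D) (S.rho D) (S.rho D))
    (h1 : S.Eff (k • S.N + D + a • S.F)) :
    S.NefW (k • S.N + D + (a + S.g * (k * T L H H + T (S.rho D) H H)) • S.F) := by
  have h2 := S.nef (k • S.N + D) a hr (by rw [S.rho_eq, hT.pow3 hLL]; exact h0) h1
  rwa [S.rho_eq, hT.add, hT.smul1] at h2

/-- a nef class which is big on the fibres -/
theorem exists_nef (hT : Cubic T) (hLL : ∀ y, T L L y = 0) {D : S.B} (hD : S.Ext D)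
    (hq : 0 < T L (S.rho D) (S.rho D)) :
    ∃ A, S.NefW A ∧ 0 < T (S.rho A) (S.rho A) (S.rho A) := by
  obtain ⟨k0, hk0⟩ := hD
  set x := S.rho D with hx
  set k := max k0 (|T x x x| + 1) with hk
  have h1 : k0 ≤ k := le_max_left _ _
  have h2 : |T x x x| + 1 ≤ k := le_max_right _ _
  have h3 : 0 < 3 * k * T L x x + T x x x := by
    have := neg_abs_le (T x x x)
    nlinarith [abs_nonneg (T x x x)]
  set q := k ^ 4 * S.Q S.N S.N S.N S.N + 4 * k ^ 3 * S.Q S.N S.N S.N D +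
      6 * k ^ 2 * S.Q S.N S.N D D + 4 * k * S.Q S.N D D D + S.Q D D D D with hqd
  have h4 : 0 < q + 4 * (|q| + 1) * (3 * k * T L x x + T x x x) := by
    have h5 := neg_abs_le q
    have h6 : |q| + 1 ≤ (|q| + 1) * (3 * k * T L x x + T x x x) := by
      nlinarith [abs_nonneg q]
    nlinarith [abs_nonneg q]
  have h5 := S.eff_of hT hLL (hk0 k h1) h3 h4
  refine ⟨_, S.nef_of hT hLL (hk0 k h1) h3 h5, ?_⟩
  rw [S.rho_eq', hT.pow3 hLL]
  exact h3

end Curve

namespace Pencil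

variable {P : Type} [AddCommGroup P] {T : P → P → P → ℤ} {c : P → ℤ} {Nef : P → Prop}
  {H L : P} {Triv : (P → ℤ) → Prop} {Run : Prop} (S : Pencil T c Nef H L Triv Run)

/-- Miyaoka's inequality if `N^2` comes from a fibre -/
theorem miyaoka_zero {k : ℤ} {v : P} (hk : 0 < k) (hZ : S.Zero k v) (D : S.B) (j0 : ℤ)
    (hD : ∀ j, j0 ≤ j → S.Rel (j • S.N + D)) : ∃ b e : ℤ, ∀ j a : ℤ,
      S.NefW (j • S.N + D + a • S.F) →
        0 ≤ - j ^ 2 * c v + k * (j * b + e + 2 * a * (j * c L + c (S.rho D))) := by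
  obtain ⟨b, e, h⟩ := S.miyaoka D j0 hD
  refine ⟨b, e, fun j a hn => ?_⟩
  have h1 := mul_nonneg hk.le (h j a hn)
  have h2 := S.zero_c k v hZ
  nlinarith

/-- the real inequality behind `thr` -/
theorem thr_real {m t q w n1 n0 n3 n2 A B a : ℝ} (hm : 1 ≤ m) (hq : 1 ≤ q) (ht : 1 ≤ t)
    (htw : |w| ≤ t) (h3 : n3 = -3 * m * q * A) (h2 : n2 = -m ^ 2 * (2 * q * B + 2 / 3 * w * A))
    (ha : m * (t ^ 2 * A + t * B + (|w * B| + |n1| + |n0| + 1)) ≤ a) :
    0 < 4 * (m * t) ^ 3 * n3 + 6 * (m * t) ^ 2 * n2 + 4 * (m * t) * n1 + n0 +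
      4 * a * (3 * (m * t) * (m ^ 2 * q) + m ^ 3 * w) := by
  have hw := neg_abs_le w
  have hd : 2 * t ≤ 3 * t * q + w := by nlinarith
  have hd0 : 0 < 3 * t * q + w := by linarith
  have hm0 : 0 < m := by linarith
  have h1 : m * (t ^ 2 * A + t * B + (|w * B| + |n1| + |n0| + 1)) * (m ^ 3 * (3 * t * q + w)) ≤
      a * (m ^ 3 * (3 * t * q + w)) := mul_le_mul_of_nonneg_right ha (by positivity)
  have hm4 : m ≤ m ^ 4 := by
    nlinarith [mul_nonneg (by linarith : (0:ℝ) ≤ m - 1) (by positivity : (0:ℝ) ≤ m ^ 3),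
      mul_nonneg (by linarith : (0:ℝ) ≤ m - 1) (by positivity : (0:ℝ) ≤ m ^ 2),
      mul_nonneg (by linarith : (0:ℝ) ≤ m - 1) (by positivity : (0:ℝ) ≤ m)]
  have hm41 : 1 ≤ m ^ 4 := by linarith
  have e1 : -(m ^ 4 * t * |n1|) ≤ m * t * n1 := by
    have h4 : -(m * t * |n1|) ≤ m * t * n1 := by
      nlinarith [neg_abs_le n1, mul_nonneg hm0.le (by linarith : (0:ℝ) ≤ t)]
    have h5 : m * t * |n1| ≤ m ^ 4 * t * |n1| := by
      apply mul_le_mul_of_nonneg_right _ (abs_nonneg _)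
      exact mul_le_mul_of_nonneg_right hm4 (by linarith)
    linarith
  have e2 : -(m ^ 4 * t * |n0|) ≤ n0 := by
    have h4 : 1 ≤ m ^ 4 * t := by nlinarith
    nlinarith [neg_abs_le n0, abs_nonneg n0]
  have e3 : -(m ^ 4 * t * |w * B|) ≤ m ^ 4 * t * (w * B) := by
    have := neg_abs_le (w * B)
    nlinarith [mul_nonneg (by positivity : (0:ℝ) ≤ m ^ 4) (by linarith : (0:ℝ) ≤ t)]
  have e4 : m ^ 4 * (|w * B| + |n1| + |n0| + 1) * (2 * t) ≤
      m ^ 4 * (|w * B| + |n1| + |n0| + 1) * (3 * t * q + w) :=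
    mul_le_mul_of_nonneg_left hd (by positivity)
  have e5 : 0 < m ^ 4 * t := by positivity
  have e6 : 0 ≤ m ^ 4 * t * |n1| := by positivity
  have e7 : 0 ≤ m ^ 4 * t * |n0| := by positivity
  have e8 : 0 ≤ m ^ 4 * t * |w * B| := by positivity
  subst h3 h2
  nlinarith

/-- Thresholds. `A = q(v, x) / (3 κ q(x, x))`, `B = v.x.x / (2 κ q(x, x)) - q(v, x) x^3 / (9 κ q(x, x)^2)`,
`rho D = m x`, `q(x, y) = L.x.y`. -/
theorem thr (hT : Cubic T) (hLL : ∀ y, T L L y = 0) {κ : ℤ} {v : P} (hκ : 0 < κ)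
    (hZ : S.Zero κ v) {D : S.B} (hD : S.Ext D) {x : P} {m : ℤ} (hm : 0 < m)
    (hx : S.rho D = m • x) (hq : 0 < T L x x) :
    ∃ (K : ℝ) (t1 : ℤ), 0 < t1 ∧ ∀ t, t1 ≤ t → ∃ a : ℤ, S.Eff ((m * t) • S.N + D + a • S.F) ∧
      S.NefW ((m * t) • S.N + D + (a + S.g * (m * (t * T L H H + T x H H))) • S.F) ∧
      (a : ℝ) ≤ m * (t ^ 2 * (T v L x / (3 * κ * T L x x)) +
        t * (T v x x / (2 * κ * T L x x) - T v L x * T x x x / (9 * κ * (T L x x) ^ 2)) + K) := by
  obtain ⟨k0, hk0⟩ := hD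
  set q := T L x x with hqd
  set w := T x x x with hwd
  set A : ℝ := T v L x / (3 * κ * q) with hA
  set B : ℝ := T v x x / (2 * κ * q) - T v L x * w / (9 * κ * q ^ 2) with hB
  set n1 := S.Q S.N D D D with hn1
  set n0 := S.Q D D D D with hn0
  set K0 : ℝ := |(w : ℝ) * B| + |(n1 : ℝ)| + |(n0 : ℝ)| + 1 with hK0
  refine ⟨K0 + 1, max 1 (max |w| k0), lt_of_lt_of_le one_pos (le_max_left _ _), fun t ht => ?_⟩
  have ht1 : 1 ≤ t := le_trans (le_max_left _ _) ht
  have htw : |w| ≤ t := le_trans (le_trans (le_max_left _ _) (le_max_right _ _)) ht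
  have htk : k0 ≤ t := le_trans (le_trans (le_max_right _ _) (le_max_right _ _)) ht
  have hr : S.Rel ((m * t) • S.N + D) := hk0 _ (by nlinarith)
  -- the numbers
  have z4 := S.zero κ v S.N S.N hZ
  have z3 := S.zero κ v S.N D hZ
  have z2 := S.zero κ v D D hZ
  rw [S.rho_N] at z4 z3
  rw [hx] at z3 z2
  have hv : T v L L = 0 := by rw [hT.symm12, hT.symm23]; exact hLL v
  rw [hv, add_zero] at z4
  have hn4 : S.Q S.N S.N S.N S.N = 0 := by
    rcases mul_eq_zero.1 z4 with h | h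
    · exact absurd h hκ.ne'
    · exact h
  rw [hT.smul3] at z3
  rw [hT.smul2, hT.smul3] at z2
  have c1 : T L (S.rho D) (S.rho D) = m ^ 2 * q := by
    rw [hx, hT.smul2, hT.smul3]; ring
  have c2 : T (S.rho D) (S.rho D) (S.rho D) = m ^ 3 * w := by
    rw [hx, hT.smul1, hT.smul2, hT.smul3]; ring
  have hm1 : (1 : ℝ) ≤ m := by exact_mod_cast hm
  have hq1 : (1 : ℝ) ≤ q := by exact_mod_cast hq
  have hκR : (0 : ℝ) < κ := by exact_mod_cast hκ
  have hqR : (0 : ℝ) < q := by linarith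
  have hmR : (0 : ℝ) < m := by linarith
  have r3 : ((S.Q S.N S.N S.N D : ℤ) : ℝ) = -3 * m * q * A := by
    have h : (κ : ℝ) * (S.Q S.N S.N S.N D : ℤ) + m * T v L x = 0 := by exact_mod_cast z3
    rw [hA]
    field_simp
    linear_combination h
  have r2 : ((S.Q S.N S.N D D : ℤ) : ℝ) = -m ^ 2 * (2 * q * B + 2 / 3 * w * A) := by
    have h : (κ : ℝ) * (S.Q S.N S.N D D : ℤ) + m * (m * T v x x) = 0 := by exact_mod_cast z2
    rw [hA, hB]
    field_simp
    linear_combination 81 * (q : ℝ) * h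
  set a : ℤ := ⌈(m : ℝ) * (t ^ 2 * A + t * B + K0)⌉ with ha
  have ha1 : (m : ℝ) * (t ^ 2 * A + t * B + K0) ≤ a := Int.le_ceil _
  have ha2 : (a : ℝ) < (m : ℝ) * (t ^ 2 * A + t * B + K0) + 1 := Int.ceil_lt_add_one _
  have ht1R : (1 : ℝ) ≤ t := by exact_mod_cast ht1
  have htwR : |(w : ℝ)| ≤ t := by exact_mod_cast htw
  have key := thr_real (m := m) (t := t) (q := q) (w := w) (n1 := n1) (n0 := n0) (A := A) (B := B)
    (a := a) hm1 hq1 ht1R htwR r3 r2 ha1
  have hpos : 0 < 3 * (m * t) * T L (S.rho D) (S.rho D) + T (S.rho D) (S.rho D) (S.rho D) := by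
    rw [c1, c2]
    have h1 := neg_abs_le w
    have h2 : 0 < 3 * t * q + w := by nlinarith
    have h3 : 3 * (m * t) * (m ^ 2 * q) + m ^ 3 * w = m ^ 3 * (3 * t * q + w) := by ring
    rw [h3]
    positivity
  have heff : S.Eff ((m * t) • S.N + D + a • S.F) := by
    apply S.eff_of hT hLL hr hpos
    rw [c1, c2, hn4]
    have : (0 : ℝ) < ((m * t) ^ 4 * 0 + 4 * (m * t) ^ 3 * S.Q S.N S.N S.N D +
        6 * (m * t) ^ 2 * S.Q S.N S.N D D + 4 * (m * t) * n1 + n0 +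
        4 * a * (3 * (m * t) * (m ^ 2 * q) + m ^ 3 * w) : ℤ) := by
      push_cast
      linarith
    exact_mod_cast this
  refine ⟨a, heff, ?_, ?_⟩
  · have h := S.nef_of hT hLL hr hpos heff
    rw [hx, hT.smul1] at h
    have e : m * (t * T L H H + T x H H) = m * t * T L H H + m * T x H H := by ring
    rw [e]
    exact h
  · nlinarith

end Pencil

end Pool.Agent.H96.N1
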